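import Pool.Agent.J4H33.LV.Sc
import Pool.Agent.J4H20.LV.Stm

set_option autoImplicit false

/-! Project LV, piece AR (helper33). -/

namespace Pool.Agent.J4H33.LV

open Polynomial Pool.Agent.J4H20.LV

theorem eval_dvd {a : ℤ} {p : ℤ[X]} (h : C a ∣ p) (x : ℤ) : a ∣ p.eval x := by
  obtain ⟨q, rfl⟩ := h
  rw [eval_mul, eval_C]
  exact dvd_mul_right _ _

theorem haev (p : ℤ[X]) (x : ℝ) : aeval x p = (p.map (Int.castRingHom ℝ)).eval x := by
  rw [aeval_def, eval₂_eq_eval_map, algebraMap_int_eq]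

theorem t_AR : S_EIS → S_SHP → S_ST → S_RTZ → S_UNQ → S_HZ → S_AR := by
  intro hEIS hSHP hST hRTZ hUNQ hHZ m e j ρ hm hje hρ hpar
  have he : 1 ≤ e := by omega
  have hj : j < e := by omega
  obtain ⟨T, ρ', g₀, r₀, h₀, hT, hBT, hρ', hg₀, hg₀n, hh₀, hh₀n, hr₀, hP0, hX, hE⟩ :=
    hEIS m e j (2 * m) hm hj
  obtain ⟨b, gs, rs, hs, σ, hb, hgs, hgsn, hhs, hhsn, hrs, hprod, hσ, w, hw, hw1, hw2⟩ :=
    hSHP m e j ρ hm he hj hρ hpar
  have hhsn' : (hs.map (algebraMap ℚ ℝ)).natDegree = j := by rw [hhs.natDegree_map]; exact hhsn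
  obtain ⟨δ, hδ, hst⟩ := hST m e j ρ (fun i => (b i : ℝ)) (gs.map (algebraMap ℚ ℝ))
    (rs.map (algebraMap ℚ ℝ)) (hs.map (algebraMap ℚ ℝ)) σ hm he hj (hgs.map _)
    (by rw [hgs.natDegree_map]; exact hgsn) (hhs.map _) hhsn'
    (lt_of_le_of_lt degree_map_le hrs) (by
      have h1 := congrArg (Polynomial.map (algebraMap ℚ ℝ)) hprod
      rw [Polynomial.map_prod, Polynomial.map_add, Polynomial.map_pow] at h1
      simpa using h1) hσ ⟨w, hw, fun i => by
        have := hw1 i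
        rw [Polynomial.map_add, Polynomial.map_pow] at this
        exact this, hw2⟩
  have : Fact T.Prime := ⟨hT⟩
  have hTp : Prime (T : ℤ) := Nat.prime_iff_prime_int.1 hT
  have hTm' : ¬ T ∣ m := fun h => by
    have := Nat.le_of_dvd (by omega) h
    omega
  have hTm : ¬ (T : ℤ) ∣ m := fun h => hTm' (Int.natCast_dvd_natCast.1 h)
  have hT2 : T ≠ 2 := by omega
  have hT2' : ¬ (T : ℤ) ∣ 2 := fun h => by
    have h1 : T ∣ 2 := by exact_mod_cast h
    have := Nat.le_of_dvd (by omega) h1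
    omega
  have hTR : (0 : ℝ) < T := by exact_mod_cast hT.pos
  set Δ : ℝ := T / δ + 1 with hΔ
  have hΔ0 : 0 < Δ := by rw [hΔ]; positivity
  have hTΔ : (T : ℝ) / Δ < δ := by
    rw [div_lt_iff₀ hΔ0, hΔ, mul_add, mul_one, mul_div_cancel₀ _ hδ.ne']
    linarith
  obtain ⟨a₀, ha₀T, ha₀⟩ := approx T hT.pos ρ' (fun i => Δ * (b i : ℝ))
  have ha₀ρ : ∀ i i', i ≠ i' → ¬ (T : ℤ) ∣ a₀ i - a₀ i' := by
    intro i i' hii h
    apply hρ' i i' hii
    have h1 := dvd_add (dvd_sub h (ha₀T i)) (ha₀T i')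
    have e1 : a₀ i - a₀ i' - (a₀ i - ρ' i) + (a₀ i' - ρ' i') = ρ' i - ρ' i' := by ring
    rwa [e1] at h1
  set P : ℤ := ∏ p ∈ (Finset.univ : Finset (Fin m × Fin e)).offDiag, (a₀ p.1 - a₀ p.2) with hP
  have hTP : ¬ (T : ℤ) ∣ P := by
    intro h
    obtain ⟨p, hp, hd⟩ := hTp.exists_mem_finset_dvd h
    exact ha₀ρ _ _ (Finset.mem_offDiag.1 hp).2.2 hd
  set W : ℕ := (2 * (m : ℤ) * P).natAbs with hW
  have hWd : ∀ z : ℤ, z ∣ (W : ℤ) ↔ z ∣ 2 * (m : ℤ) * P := fun z => by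
    rw [hW]; exact Int.dvd_natAbs
  have hTW : ¬ (T : ℤ) ∣ (W : ℤ) := by
    rw [hWd]
    intro h
    rcases hTp.dvd_or_dvd h with h | h
    · rcases hTp.dvd_or_dvd h with h | h
      · exact hT2' h
      · exact hTm h
    · exact hTP h
  have hW0 : 0 < W := by
    rcases Nat.eq_zero_or_pos W with h | h
    · exfalso
      apply hTW
      rw [h]
      exact dvd_zero _
    · exact h
  have h2W : (2 : ℤ) ∣ (W : ℤ) := by
    rw [hWd]
    exact ⟨m * P, by ring⟩
  have hmW : m ∣ W := by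
    have : (m : ℤ) ∣ (W : ℤ) := by
      rw [hWd]
      exact ⟨2 * P, by ring⟩
    exact_mod_cast this
  have hW2 : 2 ≤ W := Nat.le_of_dvd hW0 (by exact_mod_cast h2W)
  have hcop : Nat.Coprime T W := (Nat.Prime.coprime_iff_not_dvd hT).2 (fun h => hTW (by exact_mod_cast h))
  obtain ⟨N₀, hN₀⟩ := hRTZ m e a₀ hm
  -- the two choices for `h₁`, `s`
  obtain ⟨h₁, s₁, hh₁, hh₁n, hh₁T, hs₁T, hs₁e⟩ : ∃ (h₁ : ℤ[X]) (s₁ : ℤ), h₁.Monic ∧ h₁.natDegree = j ∧
      C (T : ℤ) ∣ h₁ - h₀ ∧ (T : ℤ) ∣ s₁ - 1 ∧ s₁ * h₁.eval 1 = h₀.eval 1 + T := by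
    by_cases hj0 : j = 0
    · have h1 : h₀ = 1 := eq_one_of_monic_natDegree_zero hh₀ (by rw [hh₀n, hj0])
      refine ⟨h₀, 1 + T, hh₀, hh₀n, by rw [sub_self]; exact dvd_zero _, ⟨1, by ring⟩, ?_⟩
      rw [h1, eval_one, mul_one]
    · refine ⟨h₀ + C (T : ℤ), 1, ?_, ?_, ?_, by simp, by rw [eval_add, eval_C, one_mul]⟩
      · apply hh₀.add_of_left
        refine lt_of_le_of_lt degree_C_le ?_
        rw [degree_eq_natDegree hh₀.ne_zero, hh₀n]
        exact_mod_cast Nat.pos_of_ne_zero hj0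
      · rw [natDegree_add_C]; exact hh₀n
      · rw [add_sub_cancel_left]
  obtain ⟨Λ₀, hΛ₀, hHZ₀⟩ := hHZ j T W (hs.map (algebraMap ℚ ℝ)) h₀ δ hT.pos hW0 hcop (hhs.map _)
    hhsn' hh₀ hh₀n hδ
  obtain ⟨Λ₁, hΛ₁, hHZ₁⟩ := hHZ j T W (hs.map (algebraMap ℚ ℝ)) h₁ δ hT.pos hW0 hcop (hhs.map _)
    hhsn' hh₁ hh₁n hδ
  obtain ⟨n₀, hn₀⟩ := pow_unbounded_of_one_lt (max Λ₀ Λ₁ / Δ) (by norm_num : (1 : ℝ) < 2)
  set t : ℕ := n₀ + N₀ + 1 with ht
  set L : ℕ := W ^ (t * (T - 1)) with hL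
  have hT1 : 1 ≤ T - 1 := by have := hT.two_le; omega
  have ht1 : t ≤ t * (T - 1) := Nat.le_mul_of_pos_right t hT1
  have hL2 : 2 ^ t ≤ L := by
    calc 2 ^ t ≤ W ^ t := Nat.pow_le_pow_left hW2 _
      _ ≤ L := Nat.pow_le_pow_right hW0 ht1
  have hL0 : L ≠ 0 := (pow_pos hW0 _).ne'
  have hLZ : (L : ℤ) ≠ 0 := by exact_mod_cast hL0
  have hLR : (0 : ℝ) < L := by exact_mod_cast Nat.pos_of_ne_zero hL0
  have hWL : (W : ℤ) ∣ (L : ℤ) := by
    have : W ∣ L := dvd_pow_self W (by omega)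
    exact_mod_cast this
  have hmL : (m : ℤ) ^ N₀ ∣ (L : ℤ) := by
    have : m ^ N₀ ∣ L := (pow_dvd_pow_of_dvd hmW N₀).trans (pow_dvd_pow W (by omega))
    exact_mod_cast this
  have hLT : (L : ZMod T) = 1 := by
    have h1 : (W : ZMod T) ≠ 0 := by
      intro h
      exact hTW (by exact_mod_cast (ZMod.natCast_eq_zero_iff W T).1 h)
    rw [hL, Nat.cast_pow, mul_comm t, pow_mul, ZMod.pow_card_sub_one_eq_one h1, one_pow]
  set Λ : ℝ := Δ * L with hΛ
  have hΛ0 : 0 < Λ := mul_pos hΔ0 hLR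
  have hΛm : max Λ₀ Λ₁ < Λ := by
    rw [div_lt_iff₀ hΔ0] at hn₀
    have h1 : (2 : ℝ) ^ n₀ ≤ L := by
      have h2 : 2 ^ n₀ ≤ L := (Nat.pow_le_pow_right (by norm_num) (by omega)).trans hL2
      exact_mod_cast h2
    rw [hΛ]
    nlinarith
  obtain ⟨g, r, hg, hgn, hr, hgr⟩ := hN₀ (L : ℤ) hLZ hmL
  set φ := Int.castRingHom (ZMod T) with hφ
  have hφe : ∀ x y : ℤ, (T : ℤ) ∣ x - y → φ x = φ y := by
    intro x y h
    have h1 := (ZMod.intCast_zmod_eq_zero_iff_dvd (x - y) T).2 h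
    rw [Int.cast_sub, sub_eq_zero] at h1
    exact h1
  have hφL : φ (L : ℤ) = 1 := by
    rw [hφ, eq_intCast, Int.cast_natCast]
    exact hLT
  have hdvd : C (T : ℤ) ∣ (g ^ m + r) - (g₀ ^ m + r₀) := by
    rw [C_dvd_iff, Polynomial.map_sub, ← hgr]
    rw [C_dvd_iff, Polynomial.map_sub, sub_eq_zero] at hP0
    rw [← hP0, sub_eq_zero, Polynomial.map_prod, Polynomial.map_prod]
    apply Finset.prod_congr rfl
    intro i _
    rw [Polynomial.map_sub, Polynomial.map_sub, map_X, map_C, map_C, map_mul]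
    rw [show Int.castRingHom (ZMod T) = φ from rfl, hφL, one_mul, hφe _ _ (ha₀T i)]
  obtain ⟨hgg, hrr⟩ := hUNQ m e T g r g₀ r₀ hm hT hTm' hg hgn hr hg₀ hg₀n hr₀ hdvd
  have hu : (T : ℤ) ∣ g.eval 1 + h₀.eval 1 - 1 := by
    have h1 := eval_dvd hgg 1
    have h2 := eval_dvd hX 1
    rw [eval_sub] at h1
    rw [eval_sub, eval_add, eval_pow, eval_X, one_pow] at h2
    have h3 := dvd_add h1 h2
    have e1 : eval 1 g - eval 1 g₀ + (eval 1 g₀ + eval 1 h₀ - 1) = g.eval 1 + h₀.eval 1 - 1 := by ring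
    rwa [e1] at h3
  -- the end
  have hfin : ∀ (h₂ : ℤ[X]) (s ε : ℤ), C (T : ℤ) ∣ h₂ - h₀ → (T : ℤ) ∣ s - 1 →
      s * h₂.eval 1 = h₀.eval 1 + ε →
      ¬ (T : ℤ) ^ 2 ∣ (g.eval 1 + h₀.eval 1 + ε) ^ m - (g.eval 1 ^ m + r.eval 1) →
      (∃ h' : ℤ[X], h'.Monic ∧ h'.natDegree = j ∧ C ((T : ℤ) ^ 2) ∣ h' - h₂ ∧
        (W : ℤ) ∣ h'.eval 0 - 1 ∧
        ∀ i ≤ j, |(h'.coeff i : ℝ) / Λ ^ (j - i) - (hs.map (algebraMap ℚ ℝ)).coeff i| < δ) →
      ∃ (k : ℕ) (D : DatL m e j k) (α β : ℝ), 0 < α ∧ α < β ∧ ∀ σ : ℝ, α < σ → σ < β →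
      {x : ℝ | (aeval x D.g + σ * aeval x D.h) ^ m = aeval x D.g ^ m + aeval x D.r}.ncard = ρ := by
    rintro h₂ s ε hTh hTs hsε hnd ⟨h, hh, hhn, hhT, hhW, hhc⟩
    have hme : 4 ≤ m * e := by nlinarith
    have hk : m * e - 2 + 2 = m * e := by omega
    let ψ : Fin (m * e - 2 + 2) ≃ Fin m × Fin e := (finCongr hk).trans finProdFinEquiv.symm
    have hTL : ¬ (T : ℤ) ∣ (L : ℤ) := by
      intro h1
      have h2 : (T : ℤ) ∣ (W : ℤ) := by
        rw [hL, Nat.cast_pow] at h1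
        exact hTp.dvd_of_dvd_pow h1
      exact hTW h2
    have hTa : ∀ i i' : Fin (m * e - 2 + 2), i ≠ i' →
        ¬ (T : ℤ) ∣ (L : ℤ) * a₀ (ψ i) - (L : ℤ) * a₀ (ψ i') := by
      intro i i' hii h1
      rw [← mul_sub] at h1
      rcases hTp.dvd_or_dvd h1 with h2 | h2
      · exact hTL h2
      · exact ha₀ρ _ _ (fun h3 => hii (ψ.injective h3)) h2
    have hhh₀ : h.map φ = h₀.map φ := by
      have h1 : C (T : ℤ) ∣ h - h₂ := (_root_.map_dvd (C : ℤ →+* ℤ[X]) (dvd_pow_self (T : ℤ) two_ne_zero)).trans hhT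
      have h2 := dvd_add h1 hTh
      rw [sub_add_sub_cancel, C_dvd_iff, Polynomial.map_sub, sub_eq_zero] at h2
      exact h2
    have hgg' : g.map φ = g₀.map φ := by
      have h2 := hgg
      rw [C_dvd_iff, Polynomial.map_sub, sub_eq_zero] at h2
      exact h2
    have hrr' : r.map φ = r₀.map φ := by
      have h2 := hrr
      rw [C_dvd_iff, Polynomial.map_sub, sub_eq_zero] at h2
      exact h2
    have hφs : φ s = 1 := by
      rw [hφe s 1 hTs, map_one]
    have hE1 : C (T : ℤ) ∣ (g + C s * h) ^ m - (g ^ m + r) -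
        C ((m : ℤ) * s) * (X - C 1) ^ ((m - 1) * e + j) := by
      rw [C_dvd_iff] at hE ⊢
      rw [show Int.castRingHom (ZMod T) = φ from rfl] at hE ⊢
      rw [← hE]
      simp only [Polynomial.map_sub, Polynomial.map_add, Polynomial.map_pow, Polynomial.map_mul,
        map_C, map_X, Polynomial.map_one, hhh₀, hgg', hrr', map_mul, hφs, map_one, one_mul, mul_one]
    have hE2 : ¬ (T : ℤ) ^ 2 ∣ ((g + C s * h) ^ m - (g ^ m + r)).eval 1 := by
      intro h1
      apply hnd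
      rw [eval_sub, eval_pow, eval_add, eval_mul, eval_C, eval_add, eval_pow] at h1
      have h2 : (T : ℤ) ^ 2 ∣ (g.eval 1 + s * h.eval 1) - (g.eval 1 + h₀.eval 1 + ε) := by
        have h3 := eval_dvd hhT 1
        rw [eval_sub] at h3
        have e1 : (g.eval 1 + s * h.eval 1) - (g.eval 1 + h₀.eval 1 + ε) =
            s * (h.eval 1 - h₂.eval 1) + (s * h₂.eval 1 - (h₀.eval 1 + ε)) := by ring
        rw [e1, hsε, sub_self, add_zero]
        exact h3.mul_left s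
      have h3 := h2.trans (sub_dvd_pow_sub_pow _ _ m)
      have h4 := dvd_sub h1 h3
      have e2 : (g.eval 1 + s * h.eval 1) ^ m - (g.eval 1 ^ m + r.eval 1) -
          ((g.eval 1 + s * h.eval 1) ^ m - (g.eval 1 + h₀.eval 1 + ε) ^ m) =
          (g.eval 1 + h₀.eval 1 + ε) ^ m - (g.eval 1 ^ m + r.eval 1) := by ring
      rwa [e2] at h4
    let D : DatL m e j (m * e - 2) :=
      { a := fun i => (L : ℤ) * a₀ (ψ i)
        g := g
        r := r
        h := h
        T := T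
        b := 1
        s := s
        hm := hm
        hje := hje
        hk := hk
        ha := by
          intro i i' hii
          by_contra hne
          apply hTa i i' hne
          simp only at hii
          rw [hii, sub_self]
          exact dvd_zero _
        hg := hg
        hgn := hgn
        hh := hh
        hhn := hhn
        hr := hr
        hf := by
          rw [← hgr]
          exact Equiv.prod_comp ψ (fun i => X - C ((L : ℤ) * a₀ i))
        hco := by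
          intro i q hq hqq hqd
          have hqp : Prime (q : ℤ) := Nat.prime_iff_prime_int.1 hq
          have hqW : (q : ℤ) ∣ (W : ℤ) := by
            rcases hqq with h1 | ⟨i', i'', hne, h1⟩
            · rw [h1]; exact h2W
            · rw [← mul_sub] at h1
              rcases hqp.dvd_or_dvd h1 with h2 | h2
              · rw [hL, Nat.cast_pow] at h2
                exact hqp.dvd_of_dvd_pow h2
              · rw [hWd]
                refine (h2.trans ?_).mul_left _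
                rw [hP]
                exact Finset.dvd_prod_of_mem (fun p : (Fin m × Fin e) × (Fin m × Fin e) =>
                  a₀ p.1 - a₀ p.2) (a := (ψ i', ψ i''))
                  (Finset.mem_offDiag.2 ⟨Finset.mem_univ _, Finset.mem_univ _,
                    fun h3 => hne (ψ.injective h3)⟩)
          have h1 : (q : ℤ) ∣ (L : ℤ) * a₀ (ψ i) := (hqW.trans hWL).mul_right _
          have h2 := Polynomial.sub_dvd_eval_sub ((L : ℤ) * a₀ (ψ i)) 0 h
          rw [sub_zero] at h2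
          have h3 := dvd_sub hqd (h1.trans h2)
          have h4 := dvd_sub h3 (hqW.trans hhW)
          have e1 : eval ((L : ℤ) * a₀ (ψ i)) h - (eval ((L : ℤ) * a₀ (ψ i)) h - eval 0 h) -
              (eval 0 h - 1) = 1 := by ring
          rw [e1] at h4
          exact hqp.not_isUnit (isUnit_of_dvd_one h4)
        hT := hT
        hT2 := hT2
        hTa := hTa
        hTm := by
          intro h1
          rcases hTp.dvd_or_dvd h1 with h2 | h2
          · exact hTm h2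
          · have h3 := dvd_sub h2 hTs
            have e1 : s - (s - 1) = 1 := by ring
            rw [e1] at h3
            exact hTp.not_isUnit (isUnit_of_dvd_one h3)
        hE1 := hE1
        hE2 := hE2 }
    set δ' : ℝ := min δ (σ / 2) with hδ'
    have hδ'0 : 0 < δ' := lt_min hδ (by linarith)
    have hδ'1 : δ' ≤ δ := min_le_left _ _
    have hδ'2 : δ' ≤ σ / 2 := min_le_right _ _
    have hpw : 0 < Λ ^ (e - j) := pow_pos hΛ0 _
    refine ⟨m * e - 2, D, (σ - δ') * Λ ^ (e - j), (σ + δ') * Λ ^ (e - j),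
      mul_pos (by linarith) hpw, mul_lt_mul_of_pos_right (by linarith) hpw, fun τ h1 h2 => ?_⟩
    have hfinal := scale m e j ρ hm he hj (fun i => (b i : ℝ)) (hs.map (algebraMap ℚ ℝ)) σ δ hst
      hhsn' hδ (fun i => (((L : ℤ) * a₀ i : ℤ) : ℝ)) (g.map (Int.castRingHom ℝ))
      (r.map (Int.castRingHom ℝ)) (h.map (Int.castRingHom ℝ)) Λ τ hΛ0 (hg.map _)
      (by rw [hg.natDegree_map]; exact hgn) (hh.map _) (by rw [hh.natDegree_map]; exact hhn)
      (lt_of_le_of_lt degree_map_le hr) (by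
        have h3 := congrArg (Polynomial.map (Int.castRingHom ℝ)) hgr
        rw [Polynomial.map_prod, Polynomial.map_add, Polynomial.map_pow] at h3
        rw [← h3]
        apply Finset.prod_congr rfl
        intro i _
        rw [Polynomial.map_sub, map_X, map_C, eq_intCast]) (by
        intro i
        have e1 : (((L : ℤ) * a₀ i : ℤ) : ℝ) / Λ = (a₀ i : ℝ) / Δ := by
          rw [hΛ]
          push_cast
          field_simp
        rw [e1]
        have e2 : (a₀ i : ℝ) / Δ - b i = ((a₀ i : ℝ) - Δ * b i) / Δ := by field_simp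
        rw [e2, abs_div, abs_of_pos hΔ0]
        exact lt_of_le_of_lt (div_le_div_of_nonneg_right (ha₀ i) hΔ0.le) hTΔ) (by
        intro i hi
        rw [coeff_map, eq_intCast]
        exact hhc i hi) (by
        rw [abs_lt]
        constructor
        · have h3 : σ - δ' < τ / Λ ^ (e - j) := by rw [lt_div_iff₀ hpw]; exact h1
          linarith
        · have h3 : τ / Λ ^ (e - j) < σ + δ' := by rw [div_lt_iff₀ hpw]; exact h2
          linarith)
    rw [← hfinal]
    congr 1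
    ext x
    simp only [Set.mem_ofPred_eq, haev]
    rfl
  rcases choice hT hTm (g.eval 1 + h₀.eval 1) (g.eval 1 ^ m + r.eval 1) hu with hc | hc
  · refine hfin h₀ 1 0 (by rw [sub_self]; exact dvd_zero _) (by rw [sub_self]; exact dvd_zero _)
      (by ring) (by rw [add_zero]; exact hc) ?_
    obtain ⟨h', a1, a2, a3, a4, a5⟩ := hHZ₀ Λ ((le_max_left _ _).trans_lt hΛm)
    exact ⟨h', a1, a2, a3, a4, a5⟩
  · refine hfin h₁ s₁ T hh₁T hs₁T hs₁e hc ?_
    obtain ⟨h', a1, a2, a3, a4, a5⟩ := hHZ₁ Λ ((le_max_right _ _).trans_lt hΛm)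
    exact ⟨h', a1, a2, a3, a4, a5⟩

end Pool.Agent.J4H33.LV
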