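import Mathlib

set_option autoImplicit false

/-! Project LV, piece AR: scaling of the real equation, and the choice modulo `T ^ 2` (helper33). -/

namespace Pool.Agent.J4H33.LV

open Polynomial

/-- scaled polynomial -/
noncomputable def sc (Λ : ℝ) (N : ℕ) (p : ℝ[X]) : ℝ[X] := C ((Λ ^ N)⁻¹) * p.comp (C Λ * X)

theorem sc_eval (Λ : ℝ) (N : ℕ) (p : ℝ[X]) (x : ℝ) :
    (sc Λ N p).eval x = p.eval (Λ * x) / Λ ^ N := by
  unfold sc
  rw [eval_mul, eval_C, eval_comp, eval_mul, eval_C, eval_X]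
  ring

theorem sc_coeff (Λ : ℝ) (N : ℕ) (p : ℝ[X]) (i : ℕ) :
    (sc Λ N p).coeff i = p.coeff i * Λ ^ i / Λ ^ N := by
  unfold sc
  rw [coeff_C_mul, comp_C_mul_X_coeff]
  ring

theorem sc_natDegree {Λ : ℝ} (hΛ : 0 < Λ) (N : ℕ) (p : ℝ[X]) :
    (sc Λ N p).natDegree = p.natDegree := by
  unfold sc
  rw [natDegree_C_mul (inv_ne_zero (pow_ne_zero _ hΛ.ne')), natDegree_comp,
    natDegree_C_mul_X _ hΛ.ne', mul_one]

theorem sc_monic {Λ : ℝ} (hΛ : 0 < Λ) {N : ℕ} {p : ℝ[X]} (hp : p.Monic) (hN : p.natDegree = N) :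
    (sc Λ N p).Monic := by
  unfold Monic leadingCoeff
  rw [sc_natDegree hΛ, sc_coeff, hN, ← hN, coeff_natDegree, hp.leadingCoeff, one_mul]
  exact div_self (pow_ne_zero _ hΛ.ne')

theorem sc_degree {Λ : ℝ} (hΛ : 0 < Λ) (N : ℕ) {p : ℝ[X]} {M : ℕ} (hp : p.degree < M) :
    (sc Λ N p).degree < M := by
  rw [degree_lt_iff_coeff_zero] at hp ⊢
  intro i hi
  rw [sc_coeff, hp i hi, zero_mul, zero_div]

/-- the count of the scaled equation -/
theorem scale (m e j ρ : ℕ) (hm : 2 ≤ m) (he : 1 ≤ e) (hje : j < e)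
    (b : Fin m × Fin e → ℝ) (hs : ℝ[X]) (σ δ : ℝ)
    (hst : ∀ (b' : Fin m × Fin e → ℝ) (g' r' h' : ℝ[X]) (σ' : ℝ), g'.Monic →
      g'.natDegree = e → h'.Monic → h'.natDegree = j → r'.degree < ((m - 1) * e : ℕ) →
      ∏ i, (X - C (b' i)) = g' ^ m + r' → (∀ i, |b' i - b i| < δ) →
      (∀ i, |h'.coeff i - hs.coeff i| < δ) → |σ' - σ| < δ →
      {x : ℝ | (g'.eval x + σ' * h'.eval x) ^ m = g'.eval x ^ m + r'.eval x}.ncard = ρ)
    (hhs : hs.natDegree = j) (hδ : 0 < δ)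
    (a : Fin m × Fin e → ℝ) (g r h : ℝ[X]) (Λ τ : ℝ) (hΛ : 0 < Λ) (hg : g.Monic)
    (hgn : g.natDegree = e) (hh : h.Monic) (hhn : h.natDegree = j) (hr : r.degree < ((m - 1) * e : ℕ))
    (hprod : ∏ i, (X - C (a i)) = g ^ m + r) (hab : ∀ i, |a i / Λ - b i| < δ)
    (hcf : ∀ i ≤ j, |h.coeff i / Λ ^ (j - i) - hs.coeff i| < δ)
    (hτ : |τ / Λ ^ (e - j) - σ| < δ) :
    {x : ℝ | (g.eval x + τ * h.eval x) ^ m = g.eval x ^ m + r.eval x}.ncard = ρ := by
  have hΛe : Λ ^ e ≠ 0 := pow_ne_zero _ hΛ.ne'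
  have hΛj : Λ ^ j ≠ 0 := pow_ne_zero _ hΛ.ne'
  have hΛm : Λ ^ (m * e) ≠ 0 := pow_ne_zero _ hΛ.ne'
  have key := hst (fun i => a i / Λ) (sc Λ e g) (sc Λ (m * e) r) (sc Λ j h) (τ / Λ ^ (e - j))
    (sc_monic hΛ hg hgn) ((sc_natDegree hΛ _ _).trans hgn) (sc_monic hΛ hh hhn)
    ((sc_natDegree hΛ _ _).trans hhn) (sc_degree hΛ _ hr) ?_ hab ?_ hτ
  · rw [← key]
    have himg : {x : ℝ | (g.eval x + τ * h.eval x) ^ m = g.eval x ^ m + r.eval x} =
        (fun x : ℝ => Λ * x) '' {x : ℝ | ((sc Λ e g).eval x + τ / Λ ^ (e - j) * (sc Λ j h).eval x) ^ m =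
          (sc Λ e g).eval x ^ m + (sc Λ (m * e) r).eval x} := by
      have hiff : ∀ x : ℝ, ((sc Λ e g).eval x + τ / Λ ^ (e - j) * (sc Λ j h).eval x) ^ m =
          (sc Λ e g).eval x ^ m + (sc Λ (m * e) r).eval x ↔
          (g.eval (Λ * x) + τ * h.eval (Λ * x)) ^ m = g.eval (Λ * x) ^ m + r.eval (Λ * x) := by
        intro x
        rw [sc_eval, sc_eval, sc_eval]
        have e1 : g.eval (Λ * x) / Λ ^ e + τ / Λ ^ (e - j) * (h.eval (Λ * x) / Λ ^ j) =
            (g.eval (Λ * x) + τ * h.eval (Λ * x)) / Λ ^ e := by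
          have e2 : Λ ^ e = Λ ^ (e - j) * Λ ^ j := by rw [← pow_add]; congr 1; omega
          have h3 : Λ ^ (e - j) ≠ 0 := pow_ne_zero _ hΛ.ne'
          rw [e2]
          field_simp
        rw [e1, div_pow, div_pow, ← pow_mul, mul_comm e m, ← add_div]
        constructor
        · intro h5
          rw [div_left_inj' hΛm] at h5
          exact h5
        · intro h5
          rw [h5]
      ext y
      simp only [Set.mem_image, Set.mem_ofPred_eq]
      constructor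
      · intro hy
        refine ⟨y / Λ, ?_, by field_simp⟩
        rw [hiff]
        have e3 : Λ * (y / Λ) = y := by field_simp
        rw [e3]
        exact hy
      · rintro ⟨x, hx, rfl⟩
        exact (hiff x).1 hx
    rw [himg]
    exact Set.ncard_image_of_injective _ (fun x y hxy => mul_left_cancel₀ hΛ.ne' hxy)
  · apply Polynomial.funext
    intro x
    rw [eval_prod, eval_add, eval_pow, sc_eval, sc_eval]
    simp only [eval_sub, eval_X, eval_C]
    have h1 := congrArg (Polynomial.eval (Λ * x)) hprod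
    rw [eval_prod, eval_add, eval_pow] at h1
    simp only [eval_sub, eval_X, eval_C] at h1
    have h2 : ∏ i : Fin m × Fin e, (x - a i / Λ) = (∏ i : Fin m × Fin e, (Λ * x - a i)) / Λ ^ (m * e) := by
      have h3 : ∀ i : Fin m × Fin e, x - a i / Λ = (Λ * x - a i) / Λ := by
        intro i
        field_simp
      rw [Finset.prod_congr rfl (fun i _ => h3 i), Finset.prod_div_distrib, Finset.prod_const,
        Finset.card_univ, Fintype.card_prod, Fintype.card_fin, Fintype.card_fin]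
    rw [h2, h1, div_pow, ← pow_mul, mul_comm e m, ← add_div]
  · intro i
    rw [sc_coeff]
    by_cases hi : i ≤ j
    · have e1 : h.coeff i * Λ ^ i / Λ ^ j = h.coeff i / Λ ^ (j - i) := by
        have e2 : Λ ^ j = Λ ^ (j - i) * Λ ^ i := by rw [← pow_add]; congr 1; omega
        have h3 : Λ ^ (j - i) ≠ 0 := pow_ne_zero _ hΛ.ne'
        have h4 : Λ ^ i ≠ 0 := pow_ne_zero _ hΛ.ne'
        rw [e2]
        field_simp
      rw [e1]
      exact hcf i hi
    · push Not at hi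
      rw [coeff_eq_zero_of_natDegree_lt (by omega : h.natDegree < i),
        coeff_eq_zero_of_natDegree_lt (by omega : hs.natDegree < i)]
      simpa using hδ

theorem C_dvd_iff {T : ℕ} (p : ℤ[X]) :
    C (T : ℤ) ∣ p ↔ p.map (Int.castRingHom (ZMod T)) = 0 := by
  rw [C_dvd_iff_dvd_coeff]
  constructor
  · intro h
    ext i
    rw [coeff_map, coeff_zero]
    exact (ZMod.intCast_zmod_eq_zero_iff_dvd _ _).2 (h i)
  · intro h i
    have h1 := congrArg (fun q : (ZMod T)[X] => q.coeff i) h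
    simp only [coeff_map, coeff_zero] at h1
    exact (ZMod.intCast_zmod_eq_zero_iff_dvd _ _).1 h1

/-- one of the two choices works modulo `T ^ 2` -/
theorem choice {m T : ℕ} (hT : T.Prime) (hTm : ¬ (T : ℤ) ∣ m) (u K : ℤ) (hu : (T : ℤ) ∣ u - 1) :
    ¬ (T : ℤ) ^ 2 ∣ u ^ m - K ∨ ¬ (T : ℤ) ^ 2 ∣ (u + T) ^ m - K := by
  by_contra hcon
  push Not at hcon
  obtain ⟨h1, h2⟩ := hcon
  have h3 : (T : ℤ) ^ 2 ∣ (u + T) ^ m - u ^ m := by
    have := dvd_sub h2 h1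
    have e : (u + T) ^ m - K - (u ^ m - K) = (u + T) ^ m - u ^ m := by ring
    rwa [e] at this
  obtain ⟨k, hk⟩ := Polynomial.powAddExpansion u (T : ℤ) m
  have hTp : Prime (T : ℤ) := Nat.prime_iff_prime_int.1 hT
  have h4 : (T : ℤ) ^ 2 ∣ (T : ℤ) * (m * u ^ (m - 1)) := by
    have h5 : (T : ℤ) * (m * u ^ (m - 1)) = ((u + T) ^ m - u ^ m) - k * (T : ℤ) ^ 2 := by
      rw [hk]; ring
    rw [h5]
    exact dvd_sub h3 (dvd_mul_left _ _)
  rw [pow_two] at h4
  have h5 : (T : ℤ) ∣ m * u ^ (m - 1) := (mul_dvd_mul_iff_left hTp.ne_zero).1 h4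
  rcases hTp.dvd_or_dvd h5 with h6 | h6
  · exact hTm h6
  · have h7 : (T : ℤ) ∣ u := hTp.dvd_of_dvd_pow h6
    have h8 : (T : ℤ) ∣ 1 := by
      have := dvd_sub h7 hu
      have e : u - (u - 1) = 1 := by ring
      rwa [e] at this
    exact hTp.not_unit (isUnit_of_dvd_one h8)

/-- approximation by integers with prescribed residues -/
theorem approx {ι : Type} (T : ℕ) (hT : 0 < T) (ρ : ι → ℤ) (x : ι → ℝ) :
    ∃ a : ι → ℤ, (∀ i, (T : ℤ) ∣ a i - ρ i) ∧ ∀ i, |(a i : ℝ) - x i| ≤ T := by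
  have hT' : (0 : ℝ) < T := by exact_mod_cast hT
  refine ⟨fun i => ρ i + T * ⌊(x i - ρ i) / T⌋, fun i => ⟨⌊(x i - ρ i) / T⌋, by ring⟩, fun i => ?_⟩
  have h1 : (⌊(x i - ρ i) / T⌋ : ℝ) ≤ (x i - ρ i) / T := Int.floor_le _
  have h2 : (x i - ρ i) / T < ⌊(x i - ρ i) / T⌋ + 1 := Int.lt_floor_add_one _
  rw [le_div_iff₀ hT'] at h1
  rw [div_lt_iff₀ hT'] at h2
  push_cast
  rw [abs_le]
  constructor
  · nlinarith
  · nlinarith

end Pool.Agent.J4H33.LV
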